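import Pool.Agent.ARC.StmtsA
import Pool.Agent.Helper19_ZES.SZS

/-!
# Squad ARC: the common part of the rows ARF, ARV, ARK

`core`: everything after the choice of the multiple `c0 z`. The hypothesis about a nonzero minor is
what DAF, DAG give.
-/

set_option autoImplicit false

namespace Pool.Agent.ARC.H88

open scoped BigOperators InnerProductSpace
open Pool.Agent.THS Pool.Agent.ZES
open Pool.Agent.SZG (Ch Idx gam QS WX Wf Xf Mp FF Bx Row lft Zz IM)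

/-- the family at the indices `(c k, p, q)` -/
def xs {g : ℕ} {α : Type} (c : ℕ) (x : Idx g → α) : Idx g → α := fun i => x ((c : ℤ) * i.1, i.2)

theorem gam_xs {g : ℕ} (τ : Matrix (Fin g) (Fin g) ℂ) (z : Fin g → ℂ) (l c : ℕ) (i : Idx g) :
    gam τ (c • z) l i = gam τ z l ((c : ℤ) * i.1, i.2) := by
  funext r
  simp only [gam, Pi.smul_apply, nsmul_eq_mul]
  push_cast
  ring

theorem gam_k {g : ℕ} (τ : Matrix (Fin g) (Fin g) ℂ) (z : Fin g → ℂ) (l : ℕ) (k : ℤ) :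
    gam τ z l ((k, 0, 0) : Idx g) = fun i => (k : ℂ) * z i := by
  funext r
  simp [gam]

theorem card_row (g l : ℕ) : Fintype.card (Row g l) = 2 ^ g * l ^ (2 * g) := by
  simp only [Row, Bx, Ch, Fintype.card_prod, Fintype.card_fun, ZMod.card, Fintype.card_fin]
  rw [two_mul, pow_add]

theorem tor_smul {g : ℕ} {τ : Matrix (Fin g) (Fin g) ℂ} {z : Fin g → ℂ} (c : ℕ)
    (hz : ∃ N : ℕ, 0 < N ∧ InLat τ (fun i => (N : ℂ) * z i)) :
    ∃ N : ℕ, 0 < N ∧ InLat τ (fun i => (N : ℂ) * (c • z) i) := by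
  obtain ⟨N, hN, p, q, hpq⟩ := hz
  refine ⟨N, hN, fun i => (c : ℤ) * p i, fun i => (c : ℤ) * q i, fun i => ?_⟩
  have h4 : (N : ℂ) * z i = (p i : ℂ) + ∑ j, τ i j * (q j : ℂ) := hpq i
  have h5 : (N : ℂ) * (c • z) i = (c : ℂ) * ((N : ℂ) * z i) := by
    rw [Pi.smul_apply, nsmul_eq_mul]
    ring
  show (N : ℂ) * (c • z) i = (((c : ℤ) * p i : ℤ) : ℂ)
    + ∑ j, τ i j * (((c : ℤ) * q j : ℤ) : ℂ)
  rw [h5, h4, mul_add, Finset.mul_sum]
  push_cast
  congr 1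
  refine Finset.sum_congr rfl fun j _ => ?_
  ring

/-- **The common part** of ARF, ARV, ARK. -/
theorem core (hAlx : AlxStmt) (hFrz : FrzStmt) (hThg : SZG.ThgStmt) (hNor : SZG.NorStmt)
    (hHt2 : SZG.Ht2Stmt) (hRkd : SZG.RkdStmt) (hZet : ZetStmt) (g n l : ℕ) (hl : l.Prime)
    (hlo : Odd l) (hnl : n < l) :
    ∃ J : ℕ, ∀ (d B3 : ℕ) (H0 : ℝ), ∃ B : ℕ,
    ∀ (K : Type) [Field K] [NumberField K], Module.finrank ℚ K ≤ d →
    ∀ (φ : K →+* ℂ) (τ : Matrix (Fin g) (Fin g) ℂ), Siegel τ →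
    ∀ z : Fin g → ℂ, (∃ N : ℕ, 0 < N ∧ InLat τ (fun i => (N : ℂ) * z i)) →
    ∀ x : Idx g → Ch g × Ch g → K, (∀ i, x i ≠ 0) →
    (∀ i, ∃ μ : ℂ, ∀ ab, φ (x i ab) = μ * Vab τ ab.1 ab.2 (gam τ z l i)) →
    ∀ c0 : ℕ, 1 ≤ c0 → c0 ≤ B3 →
    (∀ (E : ℕ) (L0 : AddSubgroup (Idx g)) (c : Idx g → K) (e : Idx g → Idx g → K) (s : K)
      (T : Idx g → Ch g → K) (x' : Idx g → Ch g × Ch g → K), QS K (Idx g) g E L0 c e s T x' →
      (∀ P Q : Fin g → ℤ, ((0, fun i => (l : ℤ) * P i, fun i => (l : ℤ) * Q i) : Idx g) ∈ L0) →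
      (∀ i, ∃ κ : K, κ ≠ 0 ∧ ∀ ab, x' i ab = κ * xs c0 x (i + i) ab) →
      Real.log (Height.mulHeight (T 0))
        ≤ Real.log (Height.mulHeight (x 0)) + (g : ℝ) * d * Real.log 2 →
      ∀ (r : Fin (n * l ^ (2 * g - 1)) → Row g l) (k : Fin (n * l ^ (2 * g - 1)) → ℕ),
      (∀ j, k j ≤ J) → (IM l e T r (fun j => 2 * k j)).det ≠ 0 →
      Height.mulHeight (x 0) ≤ H0) →
    (∃ M : ℕ, 1 ≤ M ∧ M ≤ B ∧ InLat τ (fun i => (M : ℂ) * z i)) ∨
    ∃ W : Submodule ℂ (Fin g → ℂ), W ≠ ⊥ ∧ W ≠ ⊤ ∧ SubAV τ W ∧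
      (∃ M : ℕ, 1 ≤ M ∧ M ≤ B ∧ ∃ u ∈ W, InLat τ (M • z - u)) ∧
      ∃ k : ℕ, 1 ≤ k ∧ k ≤ B ∧ ∀ v : Fin g → ℂ,
        (∀ f ∈ RR τ k, (∀ w ∈ W, f w = 0) → fderiv ℂ f 0 v = 0) → v ∈ W := by
  have hl0 : 1 ≤ l ^ 2 := Nat.one_le_pow _ _ hl.pos
  obtain ⟨J, hJ⟩ := hFrz g (4 * l ^ 2) ⟨2 * l ^ 2, by ring⟩ (by omega)
  obtain ⟨B2, hB2⟩ := hZet g (4 * l ^ 2) ⟨2 * l ^ 2, by ring⟩ (by omega)
  refine ⟨J, fun d B3 H0 => ?_⟩
  obtain ⟨B1, hB1⟩ := hNor g d H0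
  refine ⟨B1 + 2 * B3 * B2 + B2 + 1, ?_⟩
  intro K _ _ hd φ τ hτ z hz x hx hφ c0 hc1 hc2 hmin
  rcases Nat.eq_zero_or_pos g with hg | hg
  · subst hg
    left
    exact ⟨1, le_refl _, by omega, fun _ => 0, fun _ => 0, fun i => i.elim0⟩
  have hφs : ∀ i, ∃ μ : ℂ, ∀ ab, φ (xs c0 x i ab) = μ * Vab τ ab.1 ab.2 (gam τ (c0 • z) l i) := by
    intro i
    rw [gam_xs]
    exact hφ _
  obtain ⟨E, L0, c, e, s, T, x', hQ, hL, hκ, ν, η, hν, hη, hF⟩ :=
    hThg g K φ τ hτ (c0 • z) l hl.pos (tor_smul c0 hz) (xs c0 x) (fun i => hx _) hφs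
  have hxs0 : xs c0 x 0 = x 0 := by
    unfold xs
    have h : (((c0 : ℤ) * (0 : Idx g).1, (0 : Idx g).2) : Idx g) = 0 := by
      ext <;> simp
    rw [h]
  obtain ⟨κ0, hκ0, hx0⟩ := hκ 0
  have hx0' : x' 0 = fun ab => κ0 * x 0 ab := by
    funext ab
    have h := hx0 ab
    rwa [add_zero, hxs0] at h
  have hht : Height.mulHeight (x' 0) = Height.mulHeight (x 0) := by
    have h : x' 0 = κ0 • x 0 := by rw [hx0']; rfl
    rw [h]
    exact Height.mulHeight_smul_eq_mulHeight _ hκ0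
  have hl2 : 0 ≤ Real.log 2 := Real.log_nonneg (by norm_num)
  have hT : Real.log (Height.mulHeight (T 0))
      ≤ Real.log (Height.mulHeight (x 0)) + (g : ℝ) * d * Real.log 2 := by
    have h := hHt2 K (Idx g) g E L0 c e s T x' hQ
    rw [hht] at h
    have hTp : 0 < Height.mulHeight (T 0) := Height.mulHeight_pos _
    have hxp : 0 < Height.mulHeight (x 0) := Height.mulHeight_pos _
    have h' := Real.log_le_log (pow_pos hTp 2) h
    rw [Real.log_pow, Real.log_mul (by positivity) (pow_pos hxp 2).ne', Real.log_pow,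
      Real.log_pow] at h'
    push_cast at h'
    have hfd : (g : ℝ) * (Module.finrank ℚ K : ℝ) * Real.log 2 ≤ (g : ℝ) * d * Real.log 2 := by
      have : (Module.finrank ℚ K : ℝ) ≤ d := by exact_mod_cast hd
      exact mul_le_mul_of_nonneg_right (mul_le_mul_of_nonneg_left this (Nat.cast_nonneg _)) hl2
    have hgd : 0 ≤ (g : ℝ) * d * Real.log 2 := by positivity
    linarith
  rcases hRkd K (Fin (J + 1)) (Row g l) (n * l ^ (2 * g - 1))
    (fun r k => Mp l e T (Zz g) (lft r.2) (2 * k.val) r.1) with ⟨κ, hκi, hκr⟩ | ⟨r, k, hdet⟩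
  · -- one relation
    have hpos : 0 < Fintype.card (Row g l) - n * l ^ (2 * g - 1) := by
      rw [card_row]
      have e1 : l ^ (2 * g) = l * l ^ (2 * g - 1) := by
        rw [← pow_succ']
        congr 1
        omega
      have e2 : 0 < l ^ (2 * g - 1) := pow_pos hl.pos _
      have e3 : 1 ≤ 2 ^ g := Nat.one_le_two_pow
      have e4 : n * l ^ (2 * g - 1) < 2 ^ g * l ^ (2 * g) := by
        rw [e1]
        calc n * l ^ (2 * g - 1) < l * l ^ (2 * g - 1) :=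
              Nat.mul_lt_mul_of_pos_right (by omega) e2
          _ = 1 * (l * l ^ (2 * g - 1)) := (one_mul _).symm
          _ ≤ 2 ^ g * (l * l ^ (2 * g - 1)) := Nat.mul_le_mul_right _ e3
      omega
    obtain ⟨F, hF1, hF2, hF3⟩ := hAlx g K φ τ hτ (c0 • z) l hlo e T ν η hν hη hF
      {k | ∃ m, m ≤ J ∧ k = 2 * m} (κ ⟨0, hpos⟩) (hκi.ne_zero _) (by
        rintro _ ⟨m, hm, rfl⟩
        exact hκr ⟨0, hpos⟩ ⟨m, by omega⟩)
    obtain ⟨y, hy⟩ := Function.ne_iff.1 hF2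
    have hz2 : 2 • c0 • z = (2 * c0) • z := by rw [mul_smul]
    have hvan : ∀ k : ℕ, F (k • ((2 * c0) • z)) = 0 := by
      refine hJ τ hτ ((2 * c0) • z) F hF1 fun k hk => ?_
      have h := hF3 (2 * k) ⟨k, hk, rfl⟩
      have e1 : k • ((2 * c0) • z) = (2 * k) • c0 • z := by
        rw [← hz2, smul_smul, mul_comm]
      rw [e1]
      exact h
    have hvan1 : ∀ k : ℕ, F (fun i => (k : ℂ) * ((2 * c0) • z) i) = 0 := fun k => by
      have h5 : (fun i => (k : ℂ) * ((2 * c0) • z) i) = k • ((2 * c0) • z) := by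
        funext i
        exact (nsmul_eq_mul k (((2 * c0) • z) i)).symm
      rw [h5]
      exact hvan k
    obtain ⟨W, hW1, hW2, ⟨M, hM1, hM2, u, hu, hlat⟩, k, hk1, hk2, hk3⟩ :=
      hB2 τ hτ ((2 * c0) • z) F hF1
        (ZES.H19.van_int hF1 (tor_smul (2 * c0) hz) hvan1) ⟨y, hy⟩
    have hcM : 2 * c0 * M ≤ 2 * B3 * B2 :=
      Nat.mul_le_mul (Nat.mul_le_mul_left 2 hc2) hM2
    have hcM1 : 1 ≤ 2 * c0 * M := Nat.mul_pos (by omega) hM1
    have e12 : (2 * c0 * M) • z - u = M • (2 * c0) • z - u := by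
      rw [mul_comm, mul_smul]
    by_cases hW : W = ⊥
    · left
      refine ⟨2 * c0 * M, hcM1, by omega, ?_⟩
      subst hW
      have h0 : u = 0 := (Submodule.mem_bot ℂ).1 hu
      subst h0
      have e1 : (fun i => ((2 * c0 * M : ℕ) : ℂ) * z i) = (2 * c0 * M) • z - 0 := by
        funext i
        rw [sub_zero, Pi.smul_apply, nsmul_eq_mul]
      rw [e1, e12]
      exact hlat
    · right
      refine ⟨W, hW, hW1, hW2, ⟨2 * c0 * M, hcM1, by omega, u, hu, ?_⟩, k,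
        hk1, by omega, fun v hv => hk3 v fun f hf hf0 => hv f hf fun w hw => ?_⟩
      · rw [e12]
        exact hlat
      · have := hf0 0 w hw
        rw [zero_smul, zero_add] at this
        exact this
  · -- a nonzero minor
    left
    have hH := hmin E L0 c e s T x' hQ hL hκ hT r (fun j => (k j).val)
      (fun j => by have := (k j).2; omega) hdet
    obtain ⟨M, hM1, hM2, hM3⟩ := hB1 K hd φ τ hτ z hz (fun k => x (k, 0, 0)) (fun k => hx _) (by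
      intro k
      obtain ⟨μ, hμ⟩ := hφ (k, 0, 0)
      refine ⟨μ, fun ab => ?_⟩
      rw [← gam_k τ z l k]
      exact hμ ab) hH
    exact ⟨M, hM1, by omega, hM3⟩

end Pool.Agent.ARC.H88
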