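import Pool.Agent.ARC.StmtsU
import Pool.Agent.Helper88_ARC.Core

/-!
# Squad ARC, row ARK: the archimedean theorem
-/

set_option autoImplicit false

namespace Pool.Agent.ARC.H88

open scoped BigOperators InnerProductSpace
open Pool.Agent.THS Pool.Agent.ZES
open Pool.Agent.SZG (Ch Idx gam QS WX Wf Xf Mp FF Bx Row lft Zz IM)

/-- there are at most `[K : Q]` infinite places -/
theorem card_inf {K : Type} [Field K] [NumberField K]
    (Φ : Finset (NumberField.InfinitePlace K)) : Φ.card ≤ Module.finrank ℚ K := by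
  have h1 : Φ.card ≤ ∑ w : NumberField.InfinitePlace K, w.mult := by
    calc Φ.card ≤ Fintype.card (NumberField.InfinitePlace K) := Finset.card_le_univ _
      _ = ∑ _w : NumberField.InfinitePlace K, 1 := by simp
      _ ≤ ∑ w : NumberField.InfinitePlace K, w.mult :=
          Finset.sum_le_sum fun w _ => (NumberField.InfinitePlace.mult_pos : 0 < w.mult)
  rwa [NumberField.InfinitePlace.sum_mult_eq] at h1

/-- the places with `lam < 1` contribute at most `d` -/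
theorem sum_big {K : Type} [Field K] [NumberField K] {d : ℕ} (hd : Module.finrank ℚ K ≤ d)
    (Φ : Finset (NumberField.InfinitePlace K)) (lam : NumberField.InfinitePlace K → ℝ) :
    ∑ w ∈ Φ, lam w ≤ ∑ w ∈ Φ.filter (fun w => 1 ≤ lam w), lam w + d := by
  rw [← Finset.sum_filter_add_sum_filter_not Φ (fun w => 1 ≤ lam w)]
  have h1 : ∑ w ∈ Φ.filter (fun w => ¬ 1 ≤ lam w), lam w ≤
      ((Φ.filter (fun w => ¬ 1 ≤ lam w)).card : ℝ) := by
    calc ∑ w ∈ Φ.filter (fun w => ¬ 1 ≤ lam w), lam w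
        ≤ ∑ _w ∈ Φ.filter (fun w => ¬ 1 ≤ lam w), (1 : ℝ) := by
          refine Finset.sum_le_sum fun w hw => ?_
          have := (Finset.mem_filter.1 hw).2
          push Not at this
          exact this.le
      _ = _ := by rw [Finset.sum_const, nsmul_eq_mul, mul_one]
  have h2 : ((Φ.filter (fun w => ¬ 1 ≤ lam w)).card : ℝ) ≤ d := by
    exact_mod_cast (card_inf _).trans hd
  linarith

/-- simultaneous approximation on a finite set -/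
theorem dir_set (hDir : DirStmt) {α : Type} (S : Finset α) (Q : ℕ) (hQ : 0 < Q) (ξ : α → ℝ) :
    ∃ c : ℕ, 1 ≤ c ∧ c ≤ Q ^ S.card ∧ ∀ a ∈ S, ∃ N : ℤ, |(c : ℝ) * ξ a - (N : ℝ)| ≤ 1 / (Q : ℝ) := by
  obtain ⟨c, h1, h2, h3⟩ := hDir S.card Q hQ (fun i => ξ (S.equivFin.symm i))
  refine ⟨c, h1, h2, fun a ha => ?_⟩
  obtain ⟨N, hN⟩ := h3 (S.equivFin ⟨a, ha⟩)
  refine ⟨N, ?_⟩
  rwa [Equiv.symm_apply_apply] at hN

theorem ad_xs {g : ℕ} {K : Type} [Field K] {ψ : K →+* ℂ} {τ : Matrix (Fin g) (Fin g) ℂ}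
    {γ : Idx g → Fin g → ℂ} {x : Idx g → Ch g × Ch g → K} (h : AD ψ τ γ x) (c : ℕ) :
    AD ψ τ (xs c γ) (xs c x) where
  sg := h.sg
  add i j r := by
    have e : (((c : ℤ) * (i + j).1, (i + j).2) : Idx g)
        = (((c : ℤ) * i.1, i.2) : Idx g) + (((c : ℤ) * j.1, j.2) : Idx g) := by
      ext <;> simp [mul_add]
    show γ ((c : ℤ) * (i + j).1, (i + j).2) r = _
    rw [e, h.add]
    rfl
  tor := by
    obtain ⟨N, hN, h1⟩ := h.tor
    exact ⟨N, hN, fun i => h1 _⟩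
  pt i := h.pt _

theorem xs_Zz {g : ℕ} {K : Type} [Field K] {ψ : K →+* ℂ} {τ : Matrix (Fin g) (Fin g) ℂ}
    {γ : Idx g → Fin g → ℂ} {x : Idx g → Ch g × Ch g → K} (h : AD ψ τ γ x) (c : ℕ) (r : Fin g) :
    xs c γ (Zz g) r = (c : ℂ) * γ (Zz g) r := by
  let f : Idx g →+ ℂ := AddMonoidHom.mk' (fun i => γ i r) (fun i j => h.add i j r)
  have h1 := (map_nsmul f c (Zz g)).trans (nsmul_eq_mul c (f (Zz g)))
  have e : (((c : ℤ) * (Zz g).1, (Zz g).2) : Idx g) = c • Zz g := by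
    ext <;> simp [Zz]
  show γ ((c : ℤ) * (Zz g).1, (Zz g).2) r = _
  rw [e]
  exact h1

/-- real coordinates of a torsion point -/
theorem real_coord {g : ℕ} {τ : Matrix (Fin g) (Fin g) ℂ} {v : Fin g → ℂ}
    (h : ∃ N : ℕ, 0 < N ∧ InLat τ (fun r => (N : ℂ) * v r)) :
    ∃ X Y : Fin g → ℝ, ∀ r, v r = (X r : ℂ) + ∑ m, τ r m * (Y m : ℂ) := by
  obtain ⟨N, hN, p, q, h⟩ := h
  refine ⟨fun r => (p r : ℝ) / N, fun m => (q m : ℝ) / N, fun r => ?_⟩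
  have h1 : (N : ℂ) * v r = (p r : ℂ) + ∑ m, τ r m * (q m : ℂ) := h r
  have hN' : (N : ℂ) ≠ 0 := by exact_mod_cast hN.ne'
  have h2 : v r = (N : ℂ)⁻¹ * ((N : ℂ) * v r) := by
    rw [← mul_assoc, inv_mul_cancel₀ hN', one_mul]
  rw [h2, h1, mul_add, Finset.mul_sum]
  push_cast
  congr 1
  · rw [div_eq_mul_inv, mul_comm]
  · refine Finset.sum_congr rfl fun m _ => ?_
    rw [div_eq_mul_inv]
    ring

theorem HY_smul {g : ℕ} (τ : Matrix (Fin g) (Fin g) ℂ) (m : ℕ) (u : Fin g → ℂ) :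
    HY τ (fun i => (m : ℂ) * u i) (fun i => (m : ℂ) * u i) = (((m : ℝ) ^ 2 : ℝ) : ℂ) * HY τ u u := by
  unfold HY
  rw [Finset.mul_sum]
  refine Finset.sum_congr rfl fun i _ => ?_
  rw [Finset.mul_sum]
  refine Finset.sum_congr rfl fun j _ => ?_
  rw [map_mul, Complex.conj_natCast]
  push_cast
  ring

theorem pr_smul {g : ℕ} (τ : Matrix (Fin g) (Fin g) ℂ) (m : ℕ) {P Q P' Q' : Fin g → ℤ}
    (hP : ∀ i, P i = (m : ℤ) * P' i) (hQ : ∀ i, Q i = (m : ℤ) * Q' i) :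
    pr τ P Q = fun i => (m : ℂ) * pr τ P' Q' i := by
  funext i
  show (P i : ℂ) + ∑ j, τ i j * (Q j : ℂ) = (m : ℂ) * ((P' i : ℂ) + ∑ j, τ i j * (Q' j : ℂ))
  rw [mul_add, Finset.mul_sum, hP i]
  push_cast
  congr 1
  refine Finset.sum_congr rfl fun j _ => ?_
  rw [hQ j]
  push_cast
  ring

theorem sy_smul {g : ℕ} (P Q : Fin g → ℤ) (X Y : Fin g → ℝ) (c : ℝ) :
    sy P Q (fun i => c * X i) (fun i => c * Y i) = c * sy P Q X Y := by
  unfold sy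
  rw [Finset.mul_sum]
  refine Finset.sum_congr rfl fun i _ => ?_
  ring

theorem lam_le {lam a : ℝ} {m : ℕ} (h0 : 0 ≤ lam) (hm : 1 ≤ m)
    (h : lam * ((m : ℝ) ^ 2 * a) ≤ 1) : lam * a ≤ 1 := by
  rcases le_or_gt a 0 with ha | ha
  · have := mul_nonpos_of_nonneg_of_nonpos h0 ha
    linarith
  · have h1 : (1 : ℝ) ≤ (m : ℝ) ^ 2 := one_le_pow₀ (by exact_mod_cast hm)
    have h2 : a ≤ (m : ℝ) ^ 2 * a := by nlinarith
    exact (mul_le_mul_of_nonneg_left h2 h0).trans h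

/-- the columns `2 k c0` -/
theorem near {c0 k l J : ℕ} {ξ : ℝ} {N : ℤ} (hl : 0 < l) (hk : k ≤ J)
    (h : |(c0 : ℝ) * ξ - (N : ℝ)| ≤ 1 / ((4 * l * (J + 1) : ℕ) : ℝ)) :
    |((2 * k : ℕ) : ℝ) * ((c0 : ℝ) * ξ) - ((((2 * k : ℕ) : ℤ) * N : ℤ) : ℝ)|
      ≤ 1 / (2 * (l : ℝ)) := by
  have e : ((2 * k : ℕ) : ℝ) * ((c0 : ℝ) * ξ) - ((((2 * k : ℕ) : ℤ) * N : ℤ) : ℝ)
      = ((2 * k : ℕ) : ℝ) * ((c0 : ℝ) * ξ - (N : ℝ)) := by
    push_cast
    ring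
  have hl' : (0 : ℝ) < (l : ℝ) := by exact_mod_cast hl
  have hk' : (k : ℝ) ≤ (J : ℝ) := by exact_mod_cast hk
  have hJ' : (0 : ℝ) < (J : ℝ) + 1 := by positivity
  rw [e, abs_mul, abs_of_nonneg (by positivity)]
  calc ((2 * k : ℕ) : ℝ) * |(c0 : ℝ) * ξ - (N : ℝ)|
      ≤ ((2 * k : ℕ) : ℝ) * (1 / ((4 * l * (J + 1) : ℕ) : ℝ)) :=
        mul_le_mul_of_nonneg_left h (by positivity)
    _ ≤ (2 * ((J : ℝ) + 1)) * (1 / ((4 * l * (J + 1) : ℕ) : ℝ)) := by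
        refine mul_le_mul_of_nonneg_right ?_ (by positivity)
        push_cast
        linarith
    _ = 1 / (2 * (l : ℝ)) := by
        push_cast
        field_simp
        ring

theorem ark (hDag : DagStmt) (hDir : DirStmt) (hAlx : AlxStmt) (hFrz : FrzStmt) (hSyp : SypStmt)
    (hThg : SZG.ThgStmt) (hNor : SZG.NorStmt) (hHt2 : SZG.Ht2Stmt) (hRkd : SZG.RkdStmt)
    (hZet : ZetStmt) : ArkStatement := by
  classical
  intro g σ
  obtain ⟨σ', hσ'⟩ : ∃ σ' : ℝ, σ' = max σ 0 := ⟨_, rfl⟩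
  have hσ0 : 0 ≤ σ' := by rw [hσ']; exact le_max_right _ _
  have hσσ : σ ≤ σ' := by rw [hσ']; exact le_max_left _ _
  obtain ⟨n, hn, hdag⟩ := hDag g σ'
  refine ⟨n, fun l hl hlo hnl d => ?_⟩
  obtain ⟨J, hJ⟩ := core hAlx hFrz hThg hNor hHt2 hRkd hZet g n l hl hlo hnl
  obtain ⟨S0, hS0⟩ := hdag l hl hlo d ((g : ℝ) * d * Real.log 2 + σ' * d)
  obtain ⟨B, hB⟩ := hJ d ((4 * l * (J + 1)) ^ d) (Real.exp (σ' * (max S0 0 + d)))
  refine ⟨B, ?_⟩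
  intro K _ _ hd φ τ hτ z hz x hx hφ Φ τ' γ' P Q lam hΦ hH
  -- the primitive periods
  have hpp : ∀ w : NumberField.InfinitePlace K, ∃ (P' Q' P1 Q1 : Fin g → ℤ), w ∈ Φ →
      (∑ i, (P' i * Q1 i - Q' i * P1 i) = 1 ∧
        lam w * (HY (τ' w) (pr (τ' w) P' Q') (pr (τ' w) P' Q')).re ≤ 1) := by
    intro w
    by_cases hw : w ∈ Φ
    · obtain ⟨-, h1, h2, h3⟩ := hΦ w hw
      obtain ⟨m, P', Q', P1, Q1, hm, hP, hQ, hs⟩ := hSyp g (P w) (Q w) h1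
      refine ⟨P', Q', P1, Q1, fun _ => ⟨hs, ?_⟩⟩
      rw [pr_smul (τ' w) m hP hQ, HY_smul, Complex.re_ofReal_mul] at h3
      exact lam_le h2 hm h3
    · exact ⟨0, 0, 0, 0, fun h => absurd h hw⟩
  choose P' Q' P1 Q1 hpp using hpp
  -- the real coordinates
  have hXY : ∀ w : NumberField.InfinitePlace K, ∃ X Y : Fin g → ℝ, w ∈ Φ →
      ∀ r, γ' w (Zz g) r = (X r : ℂ) + ∑ m, τ' w r m * (Y m : ℂ) := by
    intro w
    by_cases hw : w ∈ Φ
    · obtain ⟨N, hN, h1⟩ := (hΦ w hw).1.tor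
      obtain ⟨X, Y, h2⟩ := real_coord (τ := τ' w) (v := γ' w (Zz g)) ⟨N, hN, h1 _⟩
      exact ⟨X, Y, fun _ => h2⟩
    · exact ⟨0, 0, fun h => absurd h hw⟩
  choose X Y hXY using hXY
  have hlpos : 0 < l := hl.pos
  have hQ0 : 0 < 4 * l * (J + 1) := by positivity
  obtain ⟨c0, hc1, hc2, hc3⟩ := dir_set hDir (Φ.filter (fun w => 1 ≤ lam w)) (4 * l * (J + 1)) hQ0
    (fun w => sy (P' w) (Q' w) (X w) (Y w))
  have hc2' : c0 ≤ (4 * l * (J + 1)) ^ d :=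
    hc2.trans (Nat.pow_le_pow_right hQ0 ((card_inf _).trans hd))
  have hsum := sum_big hd Φ lam
  refine hB K hd φ τ hτ z hz x hx hφ c0 hc1 hc2' ?_
  intro E L0 c e s T x' hQS hL hκ hT r k hk hdet
  have hsl : ∑ w ∈ Φ, lam w ≥ 0 := Finset.sum_nonneg fun w hw => (hΦ w hw).2.2.1
  have hH1 : Real.log (Height.mulHeight (x 0))
      ≤ σ' * (∑ w ∈ Φ.filter (fun w => 1 ≤ lam w), lam w + d) :=
    calc Real.log (Height.mulHeight (x 0)) ≤ σ * ∑ w ∈ Φ, lam w := hH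
      _ ≤ σ' * ∑ w ∈ Φ, lam w := mul_le_mul_of_nonneg_right hσσ hsl
      _ ≤ _ := mul_le_mul_of_nonneg_left hsum hσ0
  have hmain := hS0 K hd E L0 c e s T x' hQS hL (xs c0 x) hκ (Φ.filter (fun w => 1 ≤ lam w)) τ'
    (fun w => xs c0 (γ' w)) P' Q' P1 Q1 (fun w i => (c0 : ℝ) * X w i) (fun w i => (c0 : ℝ) * Y w i)
    lam (by
      intro w hw
      obtain ⟨hw1, hw2⟩ := Finset.mem_filter.1 hw
      refine ⟨ad_xs (hΦ w hw1).1 c0, hw2, (hpp w hw1).1, (hpp w hw1).2, fun r => ?_⟩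
      rw [xs_Zz (hΦ w hw1).1 c0 r, hXY w hw1 r, mul_add, Finset.mul_sum]
      push_cast
      congr 1
      refine Finset.sum_congr rfl fun m _ => ?_
      ring) (by
      refine hT.trans ?_
      linarith) r k (by
      intro j w hw
      obtain ⟨N, hN⟩ := hc3 w hw
      refine ⟨((2 * k j : ℕ) : ℤ) * N, ?_⟩
      rw [sy_smul]
      exact near hlpos (hk j) hN) hdet
  have hxp : 0 < Height.mulHeight (x 0) := Height.mulHeight_pos _
  rw [← Real.log_le_iff_le_exp hxp]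
  refine hH1.trans (mul_le_mul_of_nonneg_left ?_ hσ0)
  have := le_max_left S0 0
  linarith

end Pool.Agent.ARC.H88
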