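import Pool.Agent.ARC.StmtsP
import Pool.Agent.Helper47_SZG.DAL

/-!
# Squad ARC, row DAF: nonvanishing minors bound the sum of the archimedean degenerations
-/

set_option autoImplicit false

namespace Pool.Agent.ARC.H88

open scoped BigOperators
open Pool.Agent.THS Pool.Agent.ZES
open Pool.Agent.SZG (Ch Idx gam QS WX Wf Xf Mp FF Bx Row lft Zz IM)
open Pool.Agent.SZG.H47 (prod_split pow_bd final_ineq inf_two nv_nn)

theorem wf_pos {K I : Type} [Field K] [AddCommGroup I] (v : AbsoluteValue K ℝ) (E : ℕ)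
    (e : I → I → K) (i : I) : 0 < Wf v E e i := Real.exp_pos _

/-- the constant `L` -/
theorem exL (σ' : ℝ) (_ : 0 ≤ σ') :
    ∃ L : ℕ, 1 ≤ L ∧ 2 * σ' + 2 ≤ 2 * Real.pi * (L : ℝ) ^ 2 := by
  refine ⟨⌈σ'⌉₊ + 1, by omega, ?_⟩
  have h1 : σ' ≤ (⌈σ'⌉₊ : ℝ) := Nat.le_ceil _
  have h2 : (3 : ℝ) < Real.pi := Real.pi_gt_three
  push_cast
  have h3 : (⌈σ'⌉₊ : ℝ) + 1 ≤ ((⌈σ'⌉₊ : ℝ) + 1) ^ 2 := by nlinarith
  nlinarith

/-- the product of the gains -/
theorem prod_gain {K : Type} [Field K] [NumberField K] (a : NumberField.InfinitePlace K → ℝ)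
    (ha : ∀ v, 0 ≤ a v) (Φ : Finset (NumberField.InfinitePlace K)) {B : ℝ} (hB : 0 < B)
    (h : ∏ v : NumberField.InfinitePlace K, Real.exp (a v) ^ v.mult ≤ B) :
    ∑ v ∈ Φ, a v ≤ Real.log B := by
  have e1 : ∏ v : NumberField.InfinitePlace K, Real.exp (a v) ^ v.mult =
      Real.exp (∑ v : NumberField.InfinitePlace K, (v.mult : ℝ) * a v) := by
    rw [Real.exp_sum]
    refine Finset.prod_congr rfl fun v _ => ?_
    rw [Real.exp_nat_mul]
  rw [e1] at h
  have h1 := (Real.le_log_iff_exp_le hB).mpr h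
  refine le_trans ?_ h1
  calc ∑ v ∈ Φ, a v ≤ ∑ v : NumberField.InfinitePlace K, a v :=
        Finset.sum_le_sum_of_subset_of_nonneg (Finset.subset_univ _) fun v _ _ => ha v
    _ ≤ ∑ v : NumberField.InfinitePlace K, (v.mult : ℝ) * a v := by
        refine Finset.sum_le_sum fun v _ => ?_
        have hm : (1 : ℝ) ≤ (v.mult : ℝ) := by
          exact_mod_cast (NumberField.InfinitePlace.mult_pos : 0 < v.mult)
        nlinarith [ha v]

theorem daf (hAmw : AmwStmt) (hPfa : PfaStmt) (hDtv : SZG.DtvStmt) (hWpr : SZG.WprStmt)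
    (hWtx : SZG.WtxStmt) : DafStmt := by
  classical
  intro g σ
  obtain ⟨σ', hσ'⟩ : ∃ σ' : ℝ, σ' = max σ 0 := ⟨_, rfl⟩
  have hσ0 : 0 ≤ σ' := by rw [hσ']; exact le_max_right _ _
  have hσσ : σ ≤ σ' := by rw [hσ']; exact le_max_left _ _
  obtain ⟨L, hL1, hL⟩ := exL σ' hσ0
  refine ⟨2 * (2 * L + 4) * 2 ^ g, by positivity, ?_⟩
  intro l hl hlo d C
  obtain ⟨R, hR⟩ : ∃ R : ℕ, R = 2 * (2 * L + 4) * 2 ^ g * l ^ (2 * g - 1) := ⟨_, rfl⟩
  obtain ⟨R', hR'⟩ : ∃ R' : ℕ, R' = R - (2 * L + 4) * (2 ^ g * l ^ (2 * g - 1)) := ⟨_, rfl⟩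
  have hlpos : 0 < l := hl.pos
  have hRpos : 0 < R := by rw [hR]; positivity
  have hRR' : R ≤ 2 * R' := by
    have e1 : R = 2 * ((2 * L + 4) * (2 ^ g * l ^ (2 * g - 1))) := by rw [hR]; ring
    omega
  obtain ⟨C', hC'⟩ : ∃ C' : ℝ, C' = (R.factorial : ℝ) * (2 * (L : ℝ) + 5) ^ R * (4 * 2 ^ g) ^ R :=
    ⟨_, rfl⟩
  have hf1 : (1 : ℝ) ≤ (R.factorial : ℝ) := by
    have e0 : 1 ≤ R.factorial := Nat.one_le_iff_ne_zero.mpr (Nat.factorial_ne_zero R)
    exact_mod_cast e0
  have hL5 : (1 : ℝ) ≤ (2 * (L : ℝ) + 5) ^ R :=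
    one_le_pow₀ (by have := Nat.cast_nonneg (α := ℝ) L; linarith)
  have h2g : (2 : ℝ) ^ (g * R) ≤ (4 * 2 ^ g) ^ R := by
    rw [pow_mul]
    refine pow_le_pow_left₀ (by positivity) ?_ R
    have : (0 : ℝ) < 2 ^ g := by positivity
    linarith
  have hC'2 : (R.factorial : ℝ) * 2 ^ (g * R) ≤ C' := by
    rw [hC', mul_assoc]
    refine mul_le_mul_of_nonneg_left ?_ (by linarith)
    calc (2 : ℝ) ^ (g * R) ≤ (4 * 2 ^ g) ^ R := h2g
      _ = 1 * (4 * 2 ^ g) ^ R := (one_mul _).symm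
      _ ≤ (2 * (L : ℝ) + 5) ^ R * (4 * 2 ^ g) ^ R :=
          mul_le_mul_of_nonneg_right hL5 (by positivity)
  have hC'1 : 1 ≤ C' :=
    (one_le_mul_of_one_le_of_one_le hf1 (one_le_pow₀ (by norm_num))).trans hC'2
  refine ⟨d * Real.log (C' * 2 ^ (g * R)) / R + C, ?_⟩
  intro K _ _ hd E L0 c e s T x' hQS hper x hx Φ τ γ yw h lam hΦ hH
  rw [← hR]
  intro r k hk hdet
  have hE : 0 < E := hQS.hE
  obtain ⟨y, hy0, hy⟩ := hWpr K g E L0 c e s T x' l hQS R r (fun j => 2 * k j)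
  have hPQ : ∀ v : AbsoluteValue K ℝ, 0 ≤ (∏ i : Fin R, Wf v E e (lft (r i).2)) *
      (nv v (T 0) ^ R * ∏ j : Fin R, Wf v E e ((l * (2 * k j)) • Zz g)) := by
    intro v
    exact mul_nonneg (Finset.prod_nonneg fun i _ => (wf_pos v E e _).le)
      (mul_nonneg (pow_nonneg (nv_nn v _) _) (Finset.prod_nonneg fun i _ => (wf_pos v E e _).le))
  -- the gains
  obtain ⟨X, hX⟩ : ∃ X : NumberField.InfinitePlace K → ℝ,
      X = fun w => 2 * Real.pi * lam w * (L : ℝ) ^ 2 := ⟨_, rfl⟩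
  have hX0 : ∀ w ∈ Φ, 0 ≤ X w := by
    intro w hw
    rw [hX]
    have h1 := (hΦ w hw).2.1
    have := Real.pi_pos
    have : 0 ≤ lam w := by linarith
    positivity
  obtain ⟨a, ha⟩ : ∃ a : NumberField.InfinitePlace K → ℝ,
      a = fun w => if w ∈ Φ then (R' : ℝ) * X w else 0 := ⟨_, rfl⟩
  have ha0 : ∀ w, 0 ≤ a w := by
    intro w
    rw [ha]
    by_cases hw : w ∈ Φ
    · simp only [hw, if_true]
      exact mul_nonneg (Nat.cast_nonneg _) (hX0 w hw)
    · simp only [hw, if_false]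
      exact le_refl _
  -- infinite places
  have hinf : ∀ v : NumberField.InfinitePlace K,
      (Real.exp (a v) * v.val (IM l e T r (fun j => 2 * k j)).det) ^ (2 * E) ≤
        v.val y * (C' * nv v.val (T 0) ^ R) ^ (2 * E) := by
    intro v
    by_cases hv : v ∈ Φ
    · obtain ⟨hAD, hlam, hh, hY, hyz⟩ := hΦ v hv
      have hav : Real.exp (a v) = Real.exp (X v) ^ R' := by
        rw [ha]
        simp only [hv, if_true]
        rw [Real.exp_nat_mul]
      have hpe : Real.exp (X v) ^ R' * Real.exp (-(X v)) ^ R' = 1 := by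
        rw [← mul_pow, ← Real.exp_add, add_neg_cancel, Real.exp_zero, one_pow]
      have h1 := hAmw g K l E L0 c e s T x' hl hlo hQS hper x hx v.embedding v.val
        (fun y => (NumberField.InfinitePlace.norm_embedding_eq v y).symm) (τ v) (γ v) hAD
        (lam v) (h v) (yw v) L hlam hL1 hh hY hyz R r k (fun j => hk j v hv)
      have hXv : 2 * Real.pi * lam v * (L : ℝ) ^ 2 = X v := by rw [hX]
      rw [hav]
      have h2 : v.val (IM l e T r (fun j => 2 * k j)).det ≤ C' * Real.exp (-(X v)) ^ R' *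
          ((∏ i : Fin R, Wf v.val E e (lft (r i).2)) *
            (nv v.val (T 0) ^ R * ∏ j : Fin R, Wf v.val E e ((l * (2 * k j)) • Zz g))) := by
        rw [← prod_split v.val l T (Wf v.val E e) (fun j => 2 * k j), hC', ← hXv, hR']
        exact h1
      refine pow_bd (mul_nonneg (pow_nonneg (Real.exp_pos _).le _)
        (v.val.nonneg _)) (hy _) ?_
      calc Real.exp (X v) ^ R' * v.val (IM l e T r (fun j => 2 * k j)).det
          ≤ Real.exp (X v) ^ R' * (C' * Real.exp (-(X v)) ^ R' *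
            ((∏ i : Fin R, Wf v.val E e (lft (r i).2)) *
              (nv v.val (T 0) ^ R *
                ∏ j : Fin R, Wf v.val E e ((l * (2 * k j)) • Zz g)))) :=
            mul_le_mul_of_nonneg_left h2 (pow_nonneg (Real.exp_pos _).le _)
        _ = (Real.exp (X v) ^ R' * Real.exp (-(X v)) ^ R') * (C' *
            ((∏ i : Fin R, Wf v.val E e (lft (r i).2)) *
              (nv v.val (T 0) ^ R *
                ∏ j : Fin R, Wf v.val E e ((l * (2 * k j)) • Zz g)))) := by ring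
        _ = _ := by rw [hpe, one_mul]
    · have hav : Real.exp (a v) = 1 := by
        rw [ha]
        simp only [hv, if_false]
        exact Real.exp_zero
      rw [hav, one_mul]
      have hwx := hWtx K (Idx g) v.val g E L0 c e s T x' hQS
      have h1 := (hDtv K v.val g E L0 c e s T x' _ _ l hQS hwx hper R r
        (fun j => 2 * k j)).1 (inf_two v)
      rw [prod_split v.val l T (Wf v.val E e) (fun j => 2 * k j)] at h1
      refine pow_bd (v.val.nonneg _) (hy v.val) ?_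
      exact h1.trans (mul_le_mul_of_nonneg_right hC'2 (hPQ v.val))
  -- finite places
  have hfin : ∀ v : NumberField.FinitePlace K,
      (v.val 2 ^ (g * R) * v.val (IM l e T r (fun j => 2 * k j)).det) ^ (2 * E) ≤
        v.val y * (nv v.val (T 0) ^ R) ^ (2 * E) := by
    intro v
    have hna : IsNonarchimedean v.val := fun a b => NumberField.FinitePlace.add_le v a b
    have hwx := hWtx K (Idx g) v.val g E L0 c e s T x' hQS
    have h1 := (hDtv K v.val g E L0 c e s T x' _ _ l hQS hwx hper R r (fun j => 2 * k j)).2 hna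
    rw [prod_split v.val l T (Wf v.val E e) (fun j => 2 * k j)] at h1
    have h2 := pow_bd (A := 1) (m := 2 * E)
      (mul_nonneg (pow_nonneg (v.val.nonneg _) _) (v.val.nonneg _)) (hy v.val)
      (by rw [one_mul]; exact h1)
    rwa [one_mul] at h2
  have hmain := hPfa K (Ch g) (T 0) (IM l e T r (fun j => 2 * k j)).det y (g * R) R (2 * E) C'
    (fun v => Real.exp (a v)) (hQS.T0 0) hdet hy0 (by linarith) (by omega)
    (fun v => (Real.exp_pos _).le) hinf hfin
  have hHpos : 0 < Height.mulHeight (T 0) := Height.mulHeight_pos _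
  have hC'0 : 0 < C' := by linarith
  have hlog := prod_gain a ha0 Φ (by positivity) hmain
  rw [Real.log_mul (by positivity) (by positivity), Real.log_pow, Real.log_pow] at hlog
  have hlg0 : 0 ≤ Real.log (C' * 2 ^ (g * R)) :=
    Real.log_nonneg (one_le_mul_of_one_le_of_one_le hC'1 (one_le_pow₀ (by norm_num)))
  have hsum0 : 0 ≤ ∑ w ∈ Φ, lam w :=
    Finset.sum_nonneg fun w hw => by linarith [(hΦ w hw).2.1]
  have hsa : ∑ w ∈ Φ, a w = 2 * Real.pi * (L : ℝ) ^ 2 * (R' : ℝ) * ∑ w ∈ Φ, lam w := by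
    rw [Finset.mul_sum]
    refine Finset.sum_congr rfl fun w hw => ?_
    rw [ha, hX]
    simp only [hw, if_true]
    ring
  refine final_ineq (fr := (Module.finrank ℚ K : ℝ)) (R' := (R' : ℝ)) hσ0 hL
    (by exact_mod_cast hRpos) (by exact_mod_cast hRR') hsum0 hlg0 (by exact_mod_cast hd)
    (H := Real.log (Height.mulHeight (T 0))) ?_ ?_
  · refine hH.trans ?_
    have := mul_le_mul_of_nonneg_right hσσ hsum0
    linarith
  · rw [← hsa]
    exact hlog

end Pool.Agent.ARC.H88
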